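import Mathlib
import Pool.Agent.H570U.Gen

/-!
# MP_4285bb_an, Q1 for spaces with an unconditional basis

Let `X` be a Banach space with an unconditional basis (indexed by any set), `Y` a Banach space and
`n` a natural number. If every continuous `n`-homogeneous polynomial from `X` to `Y` is weakly
sequentially continuous, then every continuous `n`-linear map from `X ^ n` to `Y` is weakly
sequentially continuous. Reflexivity of `X` is not used.

The idea of the proof: for independent random signs `θ 1, ..., θ n` put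
`Φ(A)(x) = E A(D_{θ i} (∑ k, D_{θ k} x_k))_i`. By dominated convergence `Φ(A)` is weakly
sequentially continuous, and on a tuple of basis vectors indexed by `j` it acts as the scalar
`#{π : j ∘ π = j}`. Hence `A` is a combination of the maps `Φ(A), Φ(Φ(A)), ...`.
-/

set_option autoImplicit false
open Filter Topology

namespace Pool.Agent.Results.MP_4285bb_an.UnconditionalBasis

theorem result {𝕜 : Type*} [RCLike 𝕜] {β X Y : Type*}
    [NormedAddCommGroup X] [NormedSpace 𝕜 X] [CompleteSpace X]
    [NormedAddCommGroup Y] [NormedSpace 𝕜 Y] [CompleteSpace Y]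
    (b : UnconditionalSchauderBasis β 𝕜 X) (n : ℕ)
    (hP : ∀ A : ContinuousMultilinearMap 𝕜 (fun _ : Fin n => X) Y,
      ∀ (x : ℕ → X) (x0 : X),
        (∀ φ : X →L[𝕜] 𝕜, Tendsto (fun k => φ (x k)) atTop (𝓝 (φ x0))) →
        Tendsto (fun k => A (fun _ => x k)) atTop (𝓝 (A (fun _ => x0)))) :
    ∀ A : ContinuousMultilinearMap 𝕜 (fun _ : Fin n => X) Y,
      ∀ (x : ℕ → Fin n → X) (x0 : Fin n → X),
        (∀ i : Fin n, ∀ φ : X →L[𝕜] 𝕜,
          Tendsto (fun k => φ (x k i)) atTop (𝓝 (φ (x0 i)))) →
        Tendsto (fun k => A (x k)) atTop (𝓝 (A x0)) := by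
  intro A x x0 hx
  let _ : NormedSpace ℝ Y := NormedSpace.restrictScalars ℝ 𝕜 Y
  have : IsScalarTower ℝ 𝕜 Y := ⟨fun r c y => by
    show _ = (algebraMap ℝ 𝕜 r) • (c • y)
    rw [Algebra.smul_def, mul_smul]⟩
  exact Pool.Agent.H570U.WSC_all_gen b hP A x x0 hx

end Pool.Agent.Results.MP_4285bb_an.UnconditionalBasis
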